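import Mathlib

/-!
# LGS (MP_26d9ad, sharpness): the Jacobian criterion for algebraic independence
-/

set_option autoImplicit false

open MvPolynomial

namespace Pool.Agent.Helper67.LGS

/-- the chain rule -/
theorem pderiv_aeval {k : Type*} [Field k] {V : Type*} [Fintype V]
    (f : V → MvPolynomial V k) (v : V) (P : MvPolynomial V k) :
    pderiv v (aeval f P) = ∑ i, aeval f (pderiv i P) * pderiv v (f i) := by
  classical
  induction P using MvPolynomial.induction_on with
  | C a => simp
  | add p q hp hq => simp only [map_add, hp, hq, add_mul, Finset.sum_add_distrib]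
  | mul_X p j hp =>
    rw [map_mul, pderiv_mul, hp, aeval_X, Finset.sum_mul]
    have h1 : ∀ i, aeval f (pderiv i (p * X j)) * pderiv v (f i) =
        aeval f (pderiv i p) * pderiv v (f i) * f j +
          (if i = j then aeval f p * pderiv v (f j) else 0) := by
      intro i
      rw [pderiv_mul, map_add, map_mul, map_mul, aeval_X, pderiv_X]
      by_cases h : i = j
      · subst h
        simp
        ring
      · rw [if_neg h, Pi.single_eq_of_ne (Ne.symm h)]
        simp
        ring
    rw [Finset.sum_congr rfl fun i _ => h1 i, Finset.sum_add_distrib,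
      Finset.sum_ite_eq' Finset.univ j]
    simp

/-- a polynomial all of whose partial derivatives vanish is constant -/
theorem coeff_eq_zero_of_pderiv {k : Type*} [Field k] [CharZero k] {V : Type*}
    (P : MvPolynomial V k) (h : ∀ i, pderiv i P = 0) (m : V →₀ ℕ) (hm : m ≠ 0) :
    coeff m P = 0 := by
  classical
  obtain ⟨i, hi⟩ : ∃ i, m i ≠ 0 := by
    by_contra h1
    push Not at h1
    exact hm (Finsupp.ext h1)
  have h1 : m = (m - Finsupp.single i 1) + Finsupp.single i 1 := by
    rw [tsub_add_cancel_of_le]
    rw [Finsupp.single_le_iff]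
    omega
  have h2 := h i
  have h3 : coeff (m - Finsupp.single i 1) (pderiv i P) = 0 := by rw [h2, coeff_zero]
  rw [coeff_pderiv, ← h1] at h3
  rcases mul_eq_zero.1 h3 with h4 | h4
  · exact h4
  · exact absurd h4 (Nat.cast_add_one_ne_zero _)

theorem totalDegree_pderiv_lt {k : Type*} [Field k] {V : Type*}
    (P : MvPolynomial V k) (i : V) (h : pderiv i P ≠ 0) :
    (pderiv i P).totalDegree < P.totalDegree := by
  classical
  have h1 : ∀ m ∈ (pderiv i P).support, (m.sum fun _ e => e) < P.totalDegree := by
    intro m hm
    rw [mem_support_iff, coeff_pderiv] at hm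
    have h2 : coeff (m + Finsupp.single i 1) P ≠ 0 := left_ne_zero_of_mul hm
    have h3 := le_totalDegree (mem_support_iff.2 h2)
    rw [Finsupp.sum_add_index' (fun _ => rfl) (fun _ _ _ => rfl),
      Finsupp.sum_single_index rfl] at h3
    omega
  obtain ⟨m, hm⟩ := support_nonempty.2 h
  have h2 : 0 < P.totalDegree := lt_of_le_of_lt (Nat.zero_le _) (h1 m hm)
  exact (Finset.sup_lt_iff h2).2 h1

/-- the Jacobian criterion -/
theorem algInd_of_jac {k : Type*} [Field k] [CharZero k] {V : Type*} [Fintype V] [DecidableEq V]
    (f : V → MvPolynomial V k) (h : (Matrix.of fun i v => pderiv v (f i)).det ≠ 0) :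
    AlgebraicIndependent k f := by
  rw [algebraicIndependent_iff]
  intro P
  induction hn : P.totalDegree using Nat.strong_induction_on generalizing P with
  | _ n ih =>
    intro hP
    have h1 : ∀ i, aeval f (pderiv i P) = 0 := by
      have h2 : Matrix.vecMul (fun i => aeval f (pderiv i P))
          (Matrix.of fun i v => pderiv v (f i)) = 0 := by
        funext v
        have h3 := pderiv_aeval f v P
        rw [hP, map_zero] at h3
        rw [Matrix.vecMul, dotProduct]
        exact h3.symm
      have h4 := Matrix.eq_zero_of_vecMul_eq_zero h h2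
      intro i
      exact congrFun h4 i
    have h5 : ∀ i, pderiv i P = 0 := by
      intro i
      by_contra h6
      exact h6 (ih _ (hn ▸ totalDegree_pderiv_lt P i h6) _ rfl (h1 i))
    have h6 : P = C (coeff 0 P) := by
      ext m
      by_cases hm : m = 0
      · subst hm
        simp
      · rw [coeff_eq_zero_of_pderiv P h5 m hm, coeff_C, if_neg (Ne.symm hm)]
    rw [h6, aeval_C] at hP
    rw [h6]
    have h7 : coeff 0 P = 0 := by
      have : (C (coeff 0 P) : MvPolynomial V k) = 0 := hP
      exact C_eq_zero.1 this
    rw [h7, map_zero]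

end Pool.Agent.Helper67.LGS
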