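import Pool.Agent.Helper8.LG.Defs

/-!
# LGS (MP_26d9ad, sharpness): a form whose restriction to a line has only three zeros
-/

set_option autoImplicit false

open Polynomial

namespace Pool.Agent.Helper67.LGS

open Pool.Agent.Helper8.LG

/-- The multiset `J` consists of the indices `0` and `1` only. -/
def Pure {N n : ℕ} (J : Sym (Fin (N + 2)) n) : Prop := ∀ i ∈ J, i.1 ≤ 1

/-- The other multisets. -/
abbrev NP (N n : ℕ) := {J : Sym (Fin (N + 2)) n // ¬ Pure J}

/-- The parameters: `e`, `f`, `g`, `ρ`, then the `α_j` and the `β_j`. -/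
abbrev Par (m : ℕ) := Fin 4 ⊕ (Fin m ⊕ Fin m)

/-- All the variables. -/
abbrev Va (N n m : ℕ) := NP N (n + 2) ⊕ Par m

section

variable {R R' : Type*} [CommRing R] [CommRing R'] {N n m : ℕ}

/-- The point `(1, 0, α, 0, …, 0)`. -/
def pc (N : ℕ) (al : Fin m → R) (i : Fin (N + 2)) : R :=
  if i.1 = 0 then 1 else if i.1 = 1 then 0 else
    if h : i.1 - 2 < m then al ⟨i.1 - 2, h⟩ else 0

/-- The point `(0, 1, β, 0, …, 0)`. -/
def qc (N : ℕ) (be : Fin m → R) (i : Fin (N + 2)) : R :=
  if i.1 = 0 then 0 else if i.1 = 1 then 1 else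
    if h : i.1 - 2 < m then be ⟨i.1 - 2, h⟩ else 0

/-- The first point of the line. -/
def pv (y : Va N n m → R) : Fin (N + 2) → R := pc N fun j => y (Sum.inr (Sum.inr (Sum.inl j)))

/-- The second point of the line. -/
def qv (y : Va N n m → R) : Fin (N + 2) → R := qc N fun j => y (Sum.inr (Sum.inr (Sum.inr j)))

/-- The polynomial with three zeros. -/
noncomputable def hp (n : ℕ) (e f g ρ : R) : R[X] :=
  (1 + C ρ * X) ^ n * (C e + X) * (C f + C g * X)

/-- The polynomial with three zeros, with the values of the variables. -/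
noncomputable def hy (y : Va N n m → R) : R[X] :=
  hp n (y (Sum.inr (Sum.inl 0))) (y (Sum.inr (Sum.inl 1))) (y (Sum.inr (Sum.inl 2)))
    (y (Sum.inr (Sum.inl 3)))

/-- The coordinates of `p + X q`. -/
noncomputable def lin (y : Va N n m → R) (i : Fin (N + 2)) : R[X] :=
  C (pv y i) + C (qv y i) * X

open Classical in
/-- The sum of the terms with the coefficients `a_J`, `J` not pure, at the point `p + X q`. -/
noncomputable def np (y : Va N n m → R) : R[X] :=
  ∑ J : NP N (n + 2), C (y (Sum.inl J)) * mon (lin y) J.1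

/-- The polynomial with the remaining coefficients. -/
noncomputable def gp (y : Va N n m → R) : R[X] := hy y - np y

open Classical in
/-- The coefficients of the form. -/
noncomputable def cfn (y : Va N n m → R) (J : Sym (Fin (N + 2)) (n + 2)) : R :=
  if h : Pure J then (gp y).coeff (Multiset.count 1 (J : Multiset (Fin (N + 2)))) else
    y (Sum.inl ⟨J, h⟩)

theorem mon_map {σ : Type*} {n : ℕ} (θ : R →+* R') (x : σ → R) (J : Sym σ n) :
    θ (mon x J) = mon (fun i => θ (x i)) J := by
  unfold mon
  rw [map_multiset_prod, Multiset.map_map]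
  rfl

theorem map_pv (θ : R →+* R') (y : Va N n m → R) (i : Fin (N + 2)) :
    θ (pv y i) = pv (fun v => θ (y v)) i := by
  unfold pv pc
  split_ifs <;> simp

theorem map_qv (θ : R →+* R') (y : Va N n m → R) (i : Fin (N + 2)) :
    θ (qv y i) = qv (fun v => θ (y v)) i := by
  unfold qv qc
  split_ifs <;> simp

theorem map_hy (θ : R →+* R') (y : Va N n m → R) :
    (hy y).map θ = hy (fun v => θ (y v)) := by
  unfold hy hp
  simp

theorem map_lin (θ : R →+* R') (y : Va N n m → R) (i : Fin (N + 2)) :
    (lin y i).map θ = lin (fun v => θ (y v)) i := by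
  unfold lin
  rw [Polynomial.map_add, Polynomial.map_mul, map_C, map_C, map_X, map_pv, map_qv]

theorem map_np (θ : R →+* R') (y : Va N n m → R) :
    (np y).map θ = np (fun v => θ (y v)) := by
  classical
  unfold np
  rw [Polynomial.map_sum]
  refine Finset.sum_congr rfl fun J _ => ?_
  rw [Polynomial.map_mul, map_C]
  congr 1
  have := mon_map (mapRingHom θ) (lin y) J.1
  rw [coe_mapRingHom] at this
  rw [this]
  congr 1
  funext i
  exact map_lin θ y i

theorem map_gp (θ : R →+* R') (y : Va N n m → R) :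
    (gp y).map θ = gp (fun v => θ (y v)) := by
  unfold gp
  rw [Polynomial.map_sub, map_hy, map_np]

theorem map_cfn (θ : R →+* R') (y : Va N n m → R) (J : Sym (Fin (N + 2)) (n + 2)) :
    θ (cfn y J) = cfn (fun v => θ (y v)) J := by
  classical
  unfold cfn
  split_ifs with h
  · rw [← map_gp, coeff_map]
  · rfl

theorem natDegree_mon_lin (y : Va N n m → R) {d : ℕ} (J : Sym (Fin (N + 2)) d) :
    (mon (lin y) J).natDegree ≤ d := by
  unfold mon
  refine (natDegree_multiset_prod_le _).trans ?_
  rw [Multiset.map_map]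
  have h1 : ∀ i, (natDegree ∘ lin y) i ≤ 1 := by
    intro i
    unfold lin
    simp only [Function.comp_apply]
    compute_degree
  refine (Multiset.sum_map_le_sum_map _ (fun _ => 1) fun i _ => h1 i).trans ?_
  simp

theorem natDegree_hy (y : Va N n m → R) : (hy y).natDegree ≤ n + 2 := by
  unfold hy hp
  refine natDegree_mul_le.trans ?_
  have h1 : ((1 + C (y (Sum.inr (Sum.inl 3))) * X : R[X]) ^ n).natDegree ≤ n := by
    refine natDegree_pow_le.trans ?_
    have : (1 + C (y (Sum.inr (Sum.inl 3))) * X : R[X]).natDegree ≤ 1 := by compute_degree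
    calc n * _ ≤ n * 1 := Nat.mul_le_mul_left _ this
      _ = n := mul_one n
  have h2 : (C (y (Sum.inr (Sum.inl 0))) + X : R[X]).natDegree ≤ 1 := by compute_degree
  have h3 : (C (y (Sum.inr (Sum.inl 1))) + C (y (Sum.inr (Sum.inl 2))) * X : R[X]).natDegree
    ≤ 1 := by compute_degree
  have h4 := natDegree_mul_le (p := (1 + C (y (Sum.inr (Sum.inl 3))) * X : R[X]) ^ n)
    (q := C (y (Sum.inr (Sum.inl 0))) + X)
  omega

theorem natDegree_gp (y : Va N n m → R) : (gp y).natDegree ≤ n + 2 := by
  classical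
  unfold gp
  refine (natDegree_sub_le _ _).trans (max_le (natDegree_hy y) ?_)
  unfold np
  refine natDegree_sum_le_of_forall_le _ _ fun J _ => ?_
  exact (natDegree_C_mul_le _ _).trans (natDegree_mon_lin y J.1)

theorem lin_zero (y : Va N n m → R) : lin y 0 = 1 := by
  unfold lin pv qv pc qc
  simp

theorem lin_one (y : Va N n m → R) : lin y 1 = X := by
  unfold lin pv qv pc qc
  simp

theorem prod_lin_pure (y : Va N n m → R) (s : Multiset (Fin (N + 2))) (h : ∀ i ∈ s, i.1 ≤ 1) :
    (s.map (lin y)).prod = X ^ s.count 1 := by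
  induction s using Multiset.induction_on with
  | empty => simp
  | cons a s ih =>
    have h1 := ih fun i hi => h i (Multiset.mem_cons_of_mem hi)
    rw [Multiset.map_cons, Multiset.prod_cons, h1]
    have h2 := h a (Multiset.mem_cons_self a s)
    have h3 : a = 0 ∨ a = 1 := by
      rcases Nat.le_one_iff_eq_zero_or_eq_one.1 h2 with h3 | h3
      · left; exact Fin.ext h3
      · right; exact Fin.ext (by rw [h3]; simp)
    rcases h3 with rfl | rfl
    · rw [lin_zero, one_mul, Multiset.count_cons_of_ne (by simp)]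
    · rw [lin_one, Multiset.count_cons_self, pow_succ, mul_comm]

/-- at a pure multiset the monomial of `p + X q` is a power of `X` -/
theorem mon_lin_pure (y : Va N n m → R) {d : ℕ} (J : Sym (Fin (N + 2)) d) (h : Pure J) :
    mon (lin y) J = X ^ (Multiset.count 1 (J : Multiset (Fin (N + 2)))) :=
  prod_lin_pure y J h

/-- The pure multiset with `r` entries `1`. -/
def pureJ (N : ℕ) {d : ℕ} (r : ℕ) (h : r ≤ d) : Sym (Fin (N + 2)) d :=
  ⟨Multiset.replicate (d - r) 0 + Multiset.replicate r 1, by simp; omega⟩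

theorem pure_pureJ (N : ℕ) {d : ℕ} (r : ℕ) (h : r ≤ d) : Pure (pureJ N r h) := by
  intro i hi
  have h1 : i ∈ (Multiset.replicate (d - r) 0 + Multiset.replicate r 1 :
    Multiset (Fin (N + 2))) := hi
  rw [Multiset.mem_add] at h1
  rcases h1 with h1 | h1
  · rw [Multiset.eq_of_mem_replicate h1]; simp
  · rw [Multiset.eq_of_mem_replicate h1]; simp

theorem count_pureJ (N : ℕ) {d : ℕ} (r : ℕ) (h : r ≤ d) :
    Multiset.count 1 (pureJ N r h : Multiset (Fin (N + 2))) = r := by
  have h1 : (pureJ N r h : Multiset (Fin (N + 2))) =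
    Multiset.replicate (d - r) 0 + Multiset.replicate r 1 := rfl
  rw [h1, Multiset.count_add, Multiset.count_replicate, Multiset.count_replicate]
  simp

theorem eq_replicate (s : Multiset (Fin (N + 2))) (h : ∀ i ∈ s, i.1 ≤ 1) :
    s = Multiset.replicate (s.card - s.count 1) 0 + Multiset.replicate (s.count 1) 1 := by
  have h0 : ∀ i : Fin (N + 2), i ∈ s → i = 0 ∨ i = 1 := by
    intro i hi
    rcases Nat.le_one_iff_eq_zero_or_eq_one.1 (h i hi) with h3 | h3
    · left; exact Fin.ext h3
    · right; exact Fin.ext (by rw [h3]; simp)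
  have h3 : s.count 0 + s.count 1 = s.card := by
    have h4 := Multiset.sum_count_eq_card (s := ({0, 1} : Finset (Fin (N + 2)))) (m := s)
      (fun a ha => by
        rcases h0 a ha with h5 | h5 <;> simp [h5])
    rw [← h4, Finset.sum_pair (by simp)]
  ext i
  rw [Multiset.count_add, Multiset.count_replicate, Multiset.count_replicate]
  by_cases hi0 : i = 0
  · subst hi0
    rw [if_pos rfl, if_neg (by simp)]
    omega
  · by_cases hi1 : i = 1
    · subst hi1
      rw [if_neg (by simp), if_pos rfl, zero_add]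
    · rw [if_neg (Ne.symm hi0), if_neg (Ne.symm hi1), Multiset.count_eq_zero]
      intro hi
      rcases h0 i hi with h5 | h5
      · exact hi0 h5
      · exact hi1 h5

theorem eq_pureJ {d : ℕ} (J : Sym (Fin (N + 2)) d) (h : Pure J)
    (hr : Multiset.count 1 (J : Multiset (Fin (N + 2))) ≤ d) :
    J = pureJ N (Multiset.count 1 (J : Multiset (Fin (N + 2)))) hr := by
  apply Subtype.ext
  have h1 := eq_replicate J.1 h
  have h2 : Multiset.card J.1 = d := J.2
  have h3 : (pureJ N (Multiset.count 1 (J : Multiset (Fin (N + 2)))) hr).1 =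
    Multiset.replicate (d - Multiset.count 1 J.1) 0 +
      Multiset.replicate (Multiset.count 1 J.1) 1 := rfl
  rw [h3]
  have h4 : d - Multiset.count 1 J.1 = Multiset.card J.1 - Multiset.count 1 J.1 := by rw [h2]
  rw [h4]
  exact h1

theorem count_le {d : ℕ} (J : Sym (Fin (N + 2)) d) (i : Fin (N + 2)) :
    Multiset.count i (J : Multiset (Fin (N + 2))) ≤ d :=
  (Multiset.count_le_card _ _).trans_eq J.2

open Classical in
/-- a sum over the pure multisets -/
theorem sum_pure {M : Type*} [AddCommMonoid M] {d : ℕ} (F : ℕ → M) :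
    ∑ J : Sym (Fin (N + 2)) d with Pure J, F (Multiset.count 1 (J : Multiset (Fin (N + 2)))) =
      ∑ r ∈ Finset.range (d + 1), F r := by
  refine Finset.sum_bij (fun J _ => Multiset.count 1 (J : Multiset (Fin (N + 2)))) ?_ ?_ ?_ ?_
  · intro J _
    exact Finset.mem_range.2 (Nat.lt_succ_of_le (count_le J 1))
  · intro J hJ J' hJ' h
    rw [eq_pureJ J (Finset.mem_filter.1 hJ).2 (count_le J 1),
      eq_pureJ J' (Finset.mem_filter.1 hJ').2 (count_le J' 1)]
    congr 1
  · intro r hr
    have hr' : r ≤ d := Nat.lt_succ_iff.1 (Finset.mem_range.1 hr)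
    exact ⟨pureJ N r hr', Finset.mem_filter.2 ⟨Finset.mem_univ _, pure_pureJ N r hr'⟩,
      count_pureJ N r hr'⟩
  · intro J _
    rfl

open Classical in
theorem card_pure (N d : ℕ) :
    (Finset.univ.filter fun J : Sym (Fin (N + 2)) d => Pure J).card = d + 1 := by
  have h := sum_pure (N := N) (d := d) (M := ℕ) fun _ => 1
  simpa using h

/-- the restriction of the form to the line -/
theorem sum_cfn (y : Va N n m → R) :
    ∑ J : Sym (Fin (N + 2)) (n + 2), C (cfn y J) * mon (lin y) J = hy y := by
  classical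
  rw [← Finset.sum_filter_add_sum_filter_not Finset.univ (fun J => Pure J)]
  have h1 : ∑ J : Sym (Fin (N + 2)) (n + 2) with Pure J, C (cfn y J) * mon (lin y) J = gp y := by
    have h2 : ∀ J ∈ Finset.univ.filter (fun J : Sym (Fin (N + 2)) (n + 2) => Pure J),
        C (cfn y J) * mon (lin y) J = (fun r => C ((gp y).coeff r) * X ^ r)
          (Multiset.count 1 (J : Multiset (Fin (N + 2)))) := by
      intro J hJ
      have h3 := (Finset.mem_filter.1 hJ).2
      rw [mon_lin_pure y J h3]
      unfold cfn
      rw [dif_pos h3]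
    rw [Finset.sum_congr rfl h2]
    refine (sum_pure (fun r => C ((gp y).coeff r) * X ^ r)).trans ?_
    exact (as_sum_range_C_mul_X_pow' (gp y) (Nat.lt_succ_of_le (natDegree_gp y))).symm
  have h2 : ∑ J : Sym (Fin (N + 2)) (n + 2) with ¬ Pure J, C (cfn y J) * mon (lin y) J =
      np y := by
    unfold np
    rw [Finset.sum_subtype (Finset.univ.filter fun J : Sym (Fin (N + 2)) (n + 2) => ¬ Pure J)
      (p := fun J => ¬ Pure J) (fun J => by simp)]
    refine Finset.sum_congr rfl fun J _ => ?_
    unfold cfn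
    rw [dif_neg J.2]
  rw [h1, h2]
  unfold gp
  ring

/-- the value of the form at a point of the line -/
theorem form_line (y : Va N n m → R) (z : R) :
    form (cfn y) (fun i => pv y i + z * qv y i) =
      (1 + y (Sum.inr (Sum.inl 3)) * z) ^ n * (y (Sum.inr (Sum.inl 0)) + z) *
        (y (Sum.inr (Sum.inl 1)) + y (Sum.inr (Sum.inl 2)) * z) := by
  have h1 := congrArg (eval z) (sum_cfn y)
  have h2 : eval z (hy y) = (1 + y (Sum.inr (Sum.inl 3)) * z) ^ n * (y (Sum.inr (Sum.inl 0)) + z) *
        (y (Sum.inr (Sum.inl 1)) + y (Sum.inr (Sum.inl 2)) * z) := by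
    unfold hy hp
    simp
  rw [h2, eval_finsetSum] at h1
  rw [← h1]
  unfold form
  refine Finset.sum_congr rfl fun J _ => ?_
  rw [eval_mul, eval_C]
  congr 1
  have h3 := mon_map (evalRingHom z) (lin y) J
  rw [coe_evalRingHom] at h3
  rw [h3]
  congr 1
  funext i
  unfold lin
  simp
  ring

end

end Pool.Agent.Helper67.LGS
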