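import Pool.Agent.Helper67.LGS.Spec

/-!
# LGS (MP_26d9ad, sharpness): algebraic independence of the coefficients
-/

set_option autoImplicit false

open MvPolynomial

namespace Pool.Agent.Helper67.LGS

open Pool.Agent.Helper8.LG

section Jet

variable {k : Type*} [Field k] {V : Type*}

/-- Evaluation at `e₀ + ε δ`. -/
noncomputable def jet (e₀ δ : V → k) : MvPolynomial V k →+* DualNumber k :=
  eval₂Hom (TrivSqZeroExt.inlHom k k) fun v => TrivSqZeroExt.inl (e₀ v) + TrivSqZeroExt.inr (δ v)

theorem jet_C (e₀ δ : V → k) (c : k) : jet e₀ δ (C c) = TrivSqZeroExt.inl c := by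
  simp [jet]

theorem jet_X (e₀ δ : V → k) (v : V) :
    jet e₀ δ (X v) = TrivSqZeroExt.inl (e₀ v) + TrivSqZeroExt.inr (δ v) := by
  simp [jet]

theorem jet_fst (e₀ δ : V → k) (P : MvPolynomial V k) : (jet e₀ δ P).fst = eval e₀ P := by
  induction P using MvPolynomial.induction_on with
  | C c => simp [jet_C]
  | add p q hp hq => simp [hp, hq]
  | mul_X p v hp => simp [hp, jet_X]

theorem jet_snd [Fintype V] (e₀ δ : V → k) (P : MvPolynomial V k) :
    (jet e₀ δ P).snd = ∑ v, eval e₀ (pderiv v P) * δ v := by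
  classical
  induction P using MvPolynomial.induction_on with
  | C c => simp [jet_C]
  | add p q hp hq => simp [hp, hq, add_mul, Finset.sum_add_distrib]
  | mul_X p w hp =>
    rw [map_mul, TrivSqZeroExt.snd_mul, hp, jet_fst, jet_X]
    have h1 : ∀ v, eval e₀ (pderiv v (p * X w)) * δ v =
        e₀ w * (eval e₀ (pderiv v p) * δ v) + if v = w then eval e₀ p * δ w else 0 := by
      intro v
      rw [pderiv_mul, map_add, map_mul, map_mul, eval_X, pderiv_X]
      by_cases h : v = w
      · subst h
        simp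
        ring
      · rw [if_neg h, Pi.single_eq_of_ne (Ne.symm h)]
        simp
        ring
    rw [Finset.sum_congr rfl fun v _ => h1 v, Finset.sum_add_distrib,
      Finset.sum_ite_eq' Finset.univ w, ← Finset.mul_sum]
    simp
    ring

end Jet

section Det

variable {k : Type*} [Field k] [CharZero k] {N n m : ℕ}

/-- The base point. -/
def a0 (k : Type*) [Field k] {m : ℕ} : Par m → k :=
  Sum.elim ![0, 1, 1, 0] fun _ => 0

open Classical in
/-- The Jacobian matrix of the pure coefficients. -/
noncomputable def jm (k : Type*) [Field k] (N : ℕ) {n m : ℕ} (hn : 2 * m + 1 ≤ n) :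
    Matrix (Par m) (Par m) (MvPolynomial (Va N n m) k) :=
  Matrix.of fun i i' => pderiv (Sum.inr i')
    (cfn (X : Va N n m → MvPolynomial (Va N n m) k) (pureJ N (rr i) (rr_le hn i)))

theorem det_jm (hm : m ≤ N) (hn : 2 * m + 1 ≤ n) : (jm k N hn : Matrix (Par m) (Par m)
    (MvPolynomial (Va N n m) k)).det ≠ 0 := by
  classical
  intro h0
  have h1 := congrArg (eval (ysp hm hn (a0 k))) h0
  rw [RingHom.map_det, map_zero] at h1
  obtain ⟨δ, hδ, hδ2⟩ := Matrix.exists_mulVec_eq_zero_iff.2 h1
  apply hδ
  -- the dual numbers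
  set a : Par m → DualNumber k := fun i => TrivSqZeroExt.inl (a0 k i) + TrivSqZeroExt.inr (δ i)
    with ha
  have h2 : ∀ i : Par m, (tab n a i).snd = 0 := by
    intro i
    have h3 := congrFun hδ2 i
    have h4 := jet_snd (ysp hm hn (a0 k)) (Sum.elim (fun _ => 0) δ)
      (cfn (X : Va N n m → MvPolynomial (Va N n m) k) (pureJ N (rr i) (rr_le hn i)))
    rw [map_cfn] at h4
    have h5 : (fun v : Va N n m => jet (ysp hm hn (a0 k)) (Sum.elim (fun _ => 0) δ) (X v)) =
        ysp hm hn a := by
      funext v
      rw [jet_X]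
      rcases v with J | i
      · simp only [ysp, Sum.elim_inl]
        split_ifs <;> simp
      · rfl
    rw [h5] at h4
    have h6 : cfn (ysp hm hn a) (pureJ N (rr i) (rr_le hn i)) =
        (gp (ysp hm hn a)).coeff (rr i) := by
      unfold cfn
      rw [dif_pos (pure_pureJ N _ _), count_pureJ]
    rw [h6, coeff_sp hm hn a (by
      simp [ha, a0]) i] at h4
    rw [h4, Fintype.sum_sum_type]
    have h7 : ∑ J : NP N (n + 2), eval (ysp hm hn (a0 k)) (pderiv (Sum.inl J)
        (cfn (X : Va N n m → MvPolynomial (Va N n m) k) (pureJ N (rr i) (rr_le hn i)))) *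
        (Sum.elim (fun _ => 0) δ : Va N n m → k) (Sum.inl J) = 0 := by
      refine Finset.sum_eq_zero fun J _ => ?_
      rw [Sum.elim_inl, mul_zero]
    rw [h7, zero_add]
    rw [Matrix.mulVec, dotProduct] at h3
    exact h3
  have hn0 : (n : k) ≠ 0 := by
    have : n ≠ 0 := by omega
    exact_mod_cast this
  have e0 := h2 (Sum.inl 0)
  have e1 := h2 (Sum.inl 1)
  have e2 := h2 (Sum.inl 2)
  have e3 := h2 (Sum.inl 3)
  simp [tab, ha, a0] at e0 e1 e2 e3
  funext i
  rcases i with i | j | j
  · have e3' : δ (Sum.inl 3) = 0 := e3.resolve_right fun h => hn0 (by exact_mod_cast h)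
    rw [e3', zero_mul, add_zero] at e2
    rw [e0, zero_add] at e1
    fin_cases i
    · exact e0
    · exact e1
    · exact e2
    · exact e3'
  · have := h2 (Sum.inr (Sum.inl j))
    simp [tab, ha, a0] at this
    simpa using this
  · have := h2 (Sum.inr (Sum.inr j))
    simp [tab, ha, a0] at this
    simpa using this

/-- The chosen coefficients. -/
def jj (hn : 2 * m + 1 ≤ n) : Va N n m → Sym (Fin (N + 2)) (n + 2) :=
  Sum.elim (fun J => J.1) fun i => pureJ N (rr i) (rr_le hn i)

theorem cfn_inl {R : Type*} [CommRing R] (y : Va N n m → R) (J : NP N (n + 2)) :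
    cfn y J.1 = y (Sum.inl J) := by
  unfold cfn
  rw [dif_neg J.2]

theorem algInd (hm : m ≤ N) (hn : 2 * m + 1 ≤ n) : AlgebraicIndependent k
    (fun v : Va N n m => cfn (X : Va N n m → MvPolynomial (Va N n m) k) (jj hn v)) := by
  classical
  apply algInd_of_jac
  have h1 : (Matrix.of fun i v : Va N n m => pderiv v
      (cfn (X : Va N n m → MvPolynomial (Va N n m) k) (jj hn i))) =
      Matrix.fromBlocks 1 0 (Matrix.of fun (i : Par m) (J : NP N (n + 2)) =>
        pderiv (Sum.inl J) (cfn (X : Va N n m → MvPolynomial (Va N n m) k)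
          (pureJ N (rr i) (rr_le hn i)))) (jm k N hn) := by
    ext i v : 2
    rcases i with J | i
    · have h2 : jj hn (Sum.inl J : Va N n m) = J.1 := rfl
      rcases v with J' | i'
      · rw [Matrix.of_apply, Matrix.fromBlocks_apply₁₁, h2, cfn_inl, pderiv_X]
        by_cases h : J = J'
        · subst h
          simp
        · rw [Matrix.one_apply_ne h, Pi.single_eq_of_ne]
          intro h'
          exact h (Sum.inl_injective h')
      · rw [Matrix.of_apply, Matrix.fromBlocks_apply₁₂, h2, cfn_inl, pderiv_X]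
        simp
    · rcases v with J' | i'
      · rfl
      · rfl
  rw [h1, Matrix.det_fromBlocks_zero₁₂, Matrix.det_one, one_mul]
  exact det_jm hm hn

end Det

end Pool.Agent.Helper67.LGS
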