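import Pool.Agent.Helper67.LGS.Tools

/-!
# LGS (MP_26d9ad, sharpness): the theorem
-/

set_option autoImplicit false

open MvPolynomial

namespace Pool.Agent.Helper67.LGS

open Pool.Agent.Helper8.LG
open scoped LinearAlgebra.Projectivization

universe u

section Main

variable (k : Type u) [Field k] (N n m : ℕ)

/-- The field generated by all the variables. -/
abbrev LL : Type u := FractionRing (MvPolynomial (Va N n m) k)

/-- The variables. -/
noncomputable def yy : Va N n m → LL k N n m :=
  fun v => algebraMap (MvPolynomial (Va N n m) k) (LL k N n m) (X v)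

theorem cfn_yy (J : Sym (Fin (N + 2)) (n + 2)) :
    cfn (yy k N n m) J = algebraMap (MvPolynomial (Va N n m) k) (LL k N n m) (cfn X J) := by
  rw [map_cfn]
  rfl

theorem fg_LL : (⊤ : IntermediateField k (LL k N n m)).FG := by
  classical
  rw [IntermediateField.fg_top_iff]
  have : Algebra.EssFiniteType (MvPolynomial (Va N n m) k) (LL k N n m) :=
    Algebra.EssFiniteType.of_isLocalization _ (nonZeroDivisors (MvPolynomial (Va N n m) k))
  exact Algebra.EssFiniteType.comp k (MvPolynomial (Va N n m) k) (LL k N n m)

variable {k N n m}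

open Classical in
theorem card_Va : Fintype.card (Sym (Fin (N + 2)) (n + 2)) + (2 * m + 1) =
    Fintype.card (Va N n m) + n := by
  have h1 : Fintype.card (NP N (n + 2)) + (n + 3) = Fintype.card (Sym (Fin (N + 2)) (n + 2)) := by
    rw [Fintype.card_subtype, ← card_pure N (n + 2), add_comm,
      Finset.card_filter_add_card_filter_not, Finset.card_univ]
  have h2 : Fintype.card (Va N n m) = Fintype.card (NP N (n + 2)) + (4 + (m + m)) := by
    rw [Fintype.card_sum, Fintype.card_sum, Fintype.card_sum, Fintype.card_fin, Fintype.card_fin]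
  omega

theorem choose_le [CharZero k] (hm : m ≤ N) (c : ℕ) (hn : n = 2 * m + 1 + c) :
    (((N + 1 + (n + 2)).choose (N + 1) : ℕ) : Cardinal.{u}) ≤
      Algebra.trdeg k (coeffField k fun _ : Fin 1 => pol (cfn (yy k N n m))) + c := by
  classical
  have hn' : 2 * m + 1 ≤ n := by omega
  have h1 : AlgebraicIndependent k fun v : Va N n m => cfn (yy k N n m) (jj hn' v) := by
    have h2 := (algInd (k := k) hm hn').map'
      (f := IsScalarTower.toAlgHom k (MvPolynomial (Va N n m) k) (LL k N n m))
      (IsFractionRing.injective (MvPolynomial (Va N n m) k) (LL k N n m))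
    have h3 : (fun v : Va N n m => cfn (yy k N n m) (jj hn' v)) =
        (IsScalarTower.toAlgHom k (MvPolynomial (Va N n m) k) (LL k N n m)) ∘
          fun v => cfn (X : Va N n m → MvPolynomial (Va N n m) k) (jj hn' v) := by
      funext v
      rw [cfn_yy]
      rfl
    rw [h3]
    exact h2
  set E := coeffField k fun _ : Fin 1 => pol (cfn (yy k N n m)) with hE
  have hmem : ∀ v : Va N n m, cfn (yy k N n m) (jj hn' v) ∈ E := by
    intro v
    refine IntermediateField.subset_adjoin k _ ⟨0, _, (coeff_pol _ (jj hn' v)).symm⟩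
  have h4 : AlgebraicIndependent k fun v : Va N n m =>
      (⟨cfn (yy k N n m) (jj hn' v), hmem v⟩ : E) :=
    AlgebraicIndependent.of_comp E.val h1
  have h5 := h4.lift_cardinalMk_le_trdeg
  rw [Cardinal.mk_fintype] at h5
  have h6 : ((Fintype.card (Va N n m) : ℕ) : Cardinal.{u}) ≤ Algebra.trdeg k E := by
    simpa using h5
  have h7 := card_Va (N := N) (n := n) (m := m)
  rw [Sym.card_sym_eq_choose, Fintype.card_fin] at h7
  have h8 : (N + 1 + (n + 2)).choose (N + 1) = Fintype.card (Va N n m) + c := by
    have h9 : N + 2 + (n + 2) - 1 = N + 1 + (n + 2) := by omega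
    rw [h9] at h7
    have h10 : (N + 1 + (n + 2)).choose (n + 2) = (N + 1 + (n + 2)).choose (N + 1) :=
      Nat.choose_symm_add.symm
    omega
  rw [h8, Nat.cast_add]
  exact add_le_add h6 le_rfl

end Main

section Points

variable (k : Type u) [Field k] (N n m : ℕ)

/-- The variable `e`. -/
noncomputable def ve : LL k N n m := yy k N n m (Sum.inr (Sum.inl 0))

/-- The variable `f`. -/
noncomputable def vf : LL k N n m := yy k N n m (Sum.inr (Sum.inl 1))

/-- The variable `g`. -/
noncomputable def vg : LL k N n m := yy k N n m (Sum.inr (Sum.inl 2))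

/-- The variable `ρ`. -/
noncomputable def vr : LL k N n m := yy k N n m (Sum.inr (Sum.inl 3))

/-- The determinant of the first two linear forms. -/
noncomputable def tau : LL k N n m := 1 - vr k N n m * ve k N n m

/-- The third form is `A` times the first plus `B` times the second. -/
noncomputable def cA : LL k N n m := (vf k N n m - vg k N n m * ve k N n m) / tau k N n m

/-- The third form is `A` times the first plus `B` times the second. -/
noncomputable def cB : LL k N n m := (vg k N n m - vr k N n m * vf k N n m) / tau k N n m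

/-- The first coordinate on the line. -/
noncomputable def su (u : k) : LL k N n m :=
  (algebraMap k _ u * (cA k N n m)⁻¹ -
    vr k N n m * (1 - algebraMap k _ u) * (cB k N n m)⁻¹) * (tau k N n m)⁻¹

/-- The second coordinate on the line. -/
noncomputable def tu (u : k) : LL k N n m :=
  ((1 - algebraMap k _ u) * (cB k N n m)⁻¹ -
    ve k N n m * algebraMap k _ u * (cA k N n m)⁻¹) * (tau k N n m)⁻¹

/-- The point. -/
noncomputable def xu (u : k) (i : Fin (N + 2)) : LL k N n m :=
  su k N n m u * pv (yy k N n m) i + tu k N n m u * qv (yy k N n m) i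

variable {k N n m}

theorem tau_ne : tau k N n m ≠ 0 := by
  have h1 : tau k N n m = algebraMap (MvPolynomial (Va N n m) k) (LL k N n m)
      (1 - X (Sum.inr (Sum.inl 3)) * X (Sum.inr (Sum.inl 0))) := by
    simp [tau, vr, ve, yy]
  rw [h1]
  intro h2
  rw [map_eq_zero_iff _ (IsFractionRing.injective (MvPolynomial (Va N n m) k) (LL k N n m))] at h2
  have h3 := congrArg (eval fun _ => 0) h2
  simp at h3

theorem cA_ne : cA k N n m ≠ 0 := by
  have h1 : vf k N n m - vg k N n m * ve k N n m =
    algebraMap (MvPolynomial (Va N n m) k) (LL k N n m)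
      (X (Sum.inr (Sum.inl 1)) - X (Sum.inr (Sum.inl 2)) * X (Sum.inr (Sum.inl 0))) := by
    simp [vf, vg, ve, yy]
  unfold cA
  refine div_ne_zero ?_ tau_ne
  rw [h1]
  intro h2
  rw [map_eq_zero_iff _ (IsFractionRing.injective (MvPolynomial (Va N n m) k) (LL k N n m))] at h2
  have h3 := congrArg (eval (Sum.elim (fun _ => 0) (Sum.elim ![0, 1, 0, 0] fun _ => 0))) h2
  simp at h3

theorem cB_ne : cB k N n m ≠ 0 := by
  have h1 : vg k N n m - vr k N n m * vf k N n m =
    algebraMap (MvPolynomial (Va N n m) k) (LL k N n m)
      (X (Sum.inr (Sum.inl 2)) - X (Sum.inr (Sum.inl 3)) * X (Sum.inr (Sum.inl 1))) := by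
    simp [vf, vg, vr, yy]
  unfold cB
  refine div_ne_zero ?_ tau_ne
  rw [h1]
  intro h2
  rw [map_eq_zero_iff _ (IsFractionRing.injective (MvPolynomial (Va N n m) k) (LL k N n m))] at h2
  have h3 := congrArg (eval (Sum.elim (fun _ => 0) (Sum.elim ![0, 0, 1, 0] fun _ => 0))) h2
  simp at h3

theorem vr_ne : vr k N n m ≠ 0 := by
  unfold vr yy
  intro h2
  rw [map_eq_zero_iff _ (IsFractionRing.injective (MvPolynomial (Va N n m) k) (LL k N n m))] at h2
  exact X_ne_zero _ h2

theorem first (u : k) : su k N n m u + vr k N n m * tu k N n m u =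
    algebraMap k _ u * (cA k N n m)⁻¹ := by
  have h1 := tau_ne (k := k) (N := N) (n := n) (m := m)
  have h2 : su k N n m u + vr k N n m * tu k N n m u =
      (algebraMap k _ u * (cA k N n m)⁻¹) * ((1 - vr k N n m * ve k N n m) *
        (tau k N n m)⁻¹) := by
    unfold su tu
    ring
  rw [h2]
  have h3 : (1 - vr k N n m * ve k N n m) = tau k N n m := rfl
  rw [h3, mul_inv_cancel₀ h1, mul_one]

theorem second (u : k) : ve k N n m * su k N n m u + tu k N n m u =
    (1 - algebraMap k _ u) * (cB k N n m)⁻¹ := by
  have h1 := tau_ne (k := k) (N := N) (n := n) (m := m)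
  have h2 : ve k N n m * su k N n m u + tu k N n m u =
      ((1 - algebraMap k _ u) * (cB k N n m)⁻¹) * ((1 - vr k N n m * ve k N n m) *
        (tau k N n m)⁻¹) := by
    unfold su tu
    ring
  rw [h2]
  have h3 : (1 - vr k N n m * ve k N n m) = tau k N n m := rfl
  rw [h3, mul_inv_cancel₀ h1, mul_one]

theorem third (u : k) : vf k N n m * su k N n m u + vg k N n m * tu k N n m u = 1 := by
  have h1 := tau_ne (k := k) (N := N) (n := n) (m := m)
  have h2 := cA_ne (k := k) (N := N) (n := n) (m := m)
  have h3 := cB_ne (k := k) (N := N) (n := n) (m := m)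
  have h4 : vf k N n m = cA k N n m + cB k N n m * ve k N n m := by
    have h5 : cA k N n m * tau k N n m = vf k N n m - vg k N n m * ve k N n m := by
      unfold cA
      exact div_mul_cancel₀ _ h1
    have h6 : cB k N n m * tau k N n m = vg k N n m - vr k N n m * vf k N n m := by
      unfold cB
      exact div_mul_cancel₀ _ h1
    have h7 : (cA k N n m + cB k N n m * ve k N n m) * tau k N n m =
        vf k N n m * tau k N n m := by
      rw [add_mul, h5, mul_right_comm, h6]
      unfold tau
      ring
    exact (mul_right_cancel₀ h1 h7).symm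
  have h5 : vg k N n m = cA k N n m * vr k N n m + cB k N n m := by
    have h5 : cA k N n m * tau k N n m = vf k N n m - vg k N n m * ve k N n m := by
      unfold cA
      exact div_mul_cancel₀ _ h1
    have h6 : cB k N n m * tau k N n m = vg k N n m - vr k N n m * vf k N n m := by
      unfold cB
      exact div_mul_cancel₀ _ h1
    have h7 : (cA k N n m * vr k N n m + cB k N n m) * tau k N n m =
        vg k N n m * tau k N n m := by
      rw [add_mul, h6, mul_right_comm, h5]
      unfold tau
      ring
    exact (mul_right_cancel₀ h1 h7).symm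
  have h6 : vf k N n m * su k N n m u + vg k N n m * tu k N n m u =
      cA k N n m * (su k N n m u + vr k N n m * tu k N n m u) +
        cB k N n m * (ve k N n m * su k N n m u + tu k N n m u) := by
    rw [h4]
    have : vg k N n m * tu k N n m u = (cA k N n m * vr k N n m + cB k N n m) *
      tu k N n m u := by rw [← h5]
    rw [this]
    ring
  rw [h6, first, second]
  field_simp
  ring

/-- the value of the form at the point -/
theorem form_xu (u : k) (hs : su k N n m u ≠ 0) :
    form (cfn (yy k N n m)) (xu k N n m u) =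
      (algebraMap k _ u * (cA k N n m)⁻¹) ^ n *
        ((1 - algebraMap k _ u) * (cB k N n m)⁻¹) := by
  have h1 : xu k N n m u = fun i => su k N n m u *
      (pv (yy k N n m) i + (tu k N n m u / su k N n m u) * qv (yy k N n m) i) := by
    funext i
    unfold xu
    field_simp
  rw [h1, form_smul, form_line]
  have h2 : su k N n m u ^ (n + 2) * ((1 + yy k N n m (Sum.inr (Sum.inl 3)) *
      (tu k N n m u / su k N n m u)) ^ n * (yy k N n m (Sum.inr (Sum.inl 0)) +
      tu k N n m u / su k N n m u) * (yy k N n m (Sum.inr (Sum.inl 1)) +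
      yy k N n m (Sum.inr (Sum.inl 2)) * (tu k N n m u / su k N n m u))) =
      (su k N n m u * (1 + yy k N n m (Sum.inr (Sum.inl 3)) *
      (tu k N n m u / su k N n m u))) ^ n * (su k N n m u * (yy k N n m (Sum.inr (Sum.inl 0)) +
      tu k N n m u / su k N n m u)) * (su k N n m u * (yy k N n m (Sum.inr (Sum.inl 1)) +
      yy k N n m (Sum.inr (Sum.inl 2)) * (tu k N n m u / su k N n m u))) := by
    rw [mul_pow]
    ring
  rw [h2]
  have h3 : su k N n m u * (1 + yy k N n m (Sum.inr (Sum.inl 3)) *
      (tu k N n m u / su k N n m u)) = su k N n m u + vr k N n m * tu k N n m u := by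
    unfold vr
    field_simp
  have h4 : su k N n m u * (yy k N n m (Sum.inr (Sum.inl 0)) +
      tu k N n m u / su k N n m u) = ve k N n m * su k N n m u + tu k N n m u := by
    unfold ve
    field_simp
  have h5 : su k N n m u * (yy k N n m (Sum.inr (Sum.inl 1)) +
      yy k N n m (Sum.inr (Sum.inl 2)) * (tu k N n m u / su k N n m u)) =
      vf k N n m * su k N n m u + vg k N n m * tu k N n m u := by
    unfold vf vg
    field_simp
  rw [h3, h4, h5, first, second, third, mul_one]

end Points

end Pool.Agent.Helper67.LGS
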