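import Pool.Agent.Helper67.LGS.Main

/-!
# LGS (MP_26d9ad, sharpness): infinitely many integral points
-/

set_option autoImplicit false

open MvPolynomial

namespace Pool.Agent.Helper67.LGS

open Pool.Agent.Helper8.LG
open scoped LinearAlgebra.Projectivization

universe u

section Alg

variable (k : Type u) [Field k] (N n m : ℕ)

/-- The generators of the algebra. -/
def gens : Set (LL k N n m) :=
  {vr k N n m, ve k N n m, (tau k N n m)⁻¹, cA k N n m, cB k N n m, (cA k N n m)⁻¹,
    (cB k N n m)⁻¹} ∪ (Set.range (fun j : Fin m => yy k N n m (Sum.inr (Sum.inr (Sum.inl j)))) ∪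
    Set.range (fun j : Fin m => yy k N n m (Sum.inr (Sum.inr (Sum.inr j)))))

/-- The algebra. -/
noncomputable def AA : Subalgebra k (LL k N n m) := Algebra.adjoin k (gens k N n m)

theorem fg_AA : (AA k N n m).FG := by
  rw [Subalgebra.fg_def]
  refine ⟨gens k N n m, ?_, rfl⟩
  unfold gens
  refine Set.Finite.union (by simp) (Set.Finite.union (Set.finite_range _) (Set.finite_range _))

variable {k N n m}

theorem mem_AA {z : LL k N n m} (h : z ∈ gens k N n m) : z ∈ AA k N n m :=
  Algebra.subset_adjoin h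

theorem vr_mem : vr k N n m ∈ AA k N n m := mem_AA (by simp [gens])
theorem ve_mem : ve k N n m ∈ AA k N n m := mem_AA (by simp [gens])
theorem taui_mem : (tau k N n m)⁻¹ ∈ AA k N n m := mem_AA (by simp [gens])
theorem cA_mem : cA k N n m ∈ AA k N n m := mem_AA (by simp [gens])
theorem cB_mem : cB k N n m ∈ AA k N n m := mem_AA (by simp [gens])
theorem cAi_mem : (cA k N n m)⁻¹ ∈ AA k N n m := mem_AA (by simp [gens])
theorem cBi_mem : (cB k N n m)⁻¹ ∈ AA k N n m := mem_AA (by simp [gens])

theorem su_mem (u : k) : su k N n m u ∈ AA k N n m := by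
  unfold su
  refine mul_mem (sub_mem (mul_mem (Subalgebra.algebraMap_mem _ _) cAi_mem)
    (mul_mem (mul_mem vr_mem (sub_mem (one_mem _) (Subalgebra.algebraMap_mem _ _))) cBi_mem))
    taui_mem

theorem tu_mem (u : k) : tu k N n m u ∈ AA k N n m := by
  unfold tu
  refine mul_mem (sub_mem (mul_mem (sub_mem (one_mem _) (Subalgebra.algebraMap_mem _ _)) cBi_mem)
    (mul_mem (mul_mem ve_mem (Subalgebra.algebraMap_mem _ _)) cAi_mem)) taui_mem

theorem pv_mem (i : Fin (N + 2)) : pv (yy k N n m) i ∈ AA k N n m := by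
  unfold pv pc
  split_ifs with h1 h2 h3
  · exact one_mem _
  · exact zero_mem _
  · exact mem_AA (Or.inr (Or.inl ⟨_, rfl⟩))
  · exact zero_mem _

theorem qv_mem (i : Fin (N + 2)) : qv (yy k N n m) i ∈ AA k N n m := by
  unfold qv qc
  split_ifs with h1 h2 h3
  · exact zero_mem _
  · exact one_mem _
  · exact mem_AA (Or.inr (Or.inr ⟨_, rfl⟩))
  · exact zero_mem _

theorem xu_mem (u : k) (i : Fin (N + 2)) : xu k N n m u i ∈ AA k N n m := by
  unfold xu
  exact add_mem (mul_mem (su_mem u) (pv_mem i)) (mul_mem (tu_mem u) (qv_mem i))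

theorem mon_mem {d : ℕ} (u : k) (J : Sym (Fin (N + 2)) d) : mon (xu k N n m u) J ∈ AA k N n m := by
  unfold mon
  refine Subalgebra.multiset_prod_mem _ fun z hz => ?_
  rw [Multiset.mem_map] at hz
  obtain ⟨i, _, rfl⟩ := hz
  exact xu_mem u i

theorem form_ne (u : k) (hs : su k N n m u ≠ 0) (h0 : u ≠ 0) (h1 : u ≠ 1) :
    form (cfn (yy k N n m)) (xu k N n m u) ≠ 0 := by
  rw [form_xu u hs]
  have h2 : algebraMap k (LL k N n m) u ≠ 0 := by
    rw [Ne, map_eq_zero_iff _ (algebraMap k (LL k N n m)).injective]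
    exact h0
  have h3 : (1 : LL k N n m) - algebraMap k (LL k N n m) u ≠ 0 := by
    rw [sub_ne_zero]
    intro h
    apply h1
    apply (algebraMap k (LL k N n m)).injective
    rw [← h, map_one]
  exact mul_ne_zero (pow_ne_zero _ (mul_ne_zero h2 (inv_ne_zero cA_ne)))
    (mul_ne_zero h3 (inv_ne_zero cB_ne))

theorem quot_mem (u : k) (hs : su k N n m u ≠ 0) (J : Sym (Fin (N + 2)) (n + 2)) :
    mon (xu k N n m u) J / form (cfn (yy k N n m)) (xu k N n m u) ∈ AA k N n m := by
  rw [div_eq_mul_inv, form_xu u hs]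
  refine mul_mem (mon_mem u J) ?_
  rw [mul_inv, ← inv_pow, mul_inv, inv_inv, mul_inv, inv_inv]
  refine mul_mem (pow_mem (mul_mem ?_ cA_mem) n) (mul_mem ?_ cB_mem)
  · rw [← map_inv₀]
    exact Subalgebra.algebraMap_mem _ _
  · have h : (1 : LL k N n m) - algebraMap k (LL k N n m) u =
        algebraMap k (LL k N n m) (1 - u) := by rw [map_sub, map_one]
    rw [h, ← map_inv₀]
    exact Subalgebra.algebraMap_mem _ _

end Alg

section Pts

variable {k : Type u} [Field k] {N n m : ℕ}

theorem xu_zero (u : k) : xu k N n m u 0 = su k N n m u := by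
  simp [xu, pv, qv, pc, qc]

theorem xu_one (u : k) : xu k N n m u 1 = tu k N n m u := by
  simp [xu, pv, qv, pc, qc]

theorem xu_large (u : k) (i : Fin (N + 2)) (h : m + 1 < i.1) : xu k N n m u i = 0 := by
  have h1 : pv (yy k N n m) i = 0 := by
    unfold pv pc
    rw [if_neg (by omega), if_neg (by omega), dif_neg (by omega)]
  have h2 : qv (yy k N n m) i = 0 := by
    unfold qv qc
    rw [if_neg (by omega), if_neg (by omega), dif_neg (by omega)]
  unfold xu
  rw [h1, h2, mul_zero, mul_zero, add_zero]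

theorem ratioField_smul {k₀ M : Type*} [Field k₀] [Field M] [Algebra k₀ M] {N : ℕ}
    (c : M) (hc : c ≠ 0) (x : Fin (N + 1) → M) :
    ratioField k₀ (fun i => c * x i) = ratioField k₀ x := by
  rw [ratioField, ratioField]
  congr 1
  ext z
  simp only [mul_div_mul_left _ _ hc]

/-- the points have coordinates in a field of small transcendence degree -/
theorem trdeg_xu (u : k) (hs : su k N n m u ≠ 0) :
    Algebra.trdeg k (ratioField k (xu k N n m u)) ≤ ((m + 1 : ℕ) : Cardinal.{u}) := by
  classical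
  -- the generators
  let f : Fin (m + 1) → LL k N n m := fun j =>
    if h : j.1 + 1 < N + 2 then xu k N n m u ⟨j.1 + 1, h⟩ / su k N n m u else 0
  have h1 : ∀ i : Fin (N + 2), xu k N n m u i / su k N n m u ∈
      IntermediateField.adjoin k (Set.range f) := by
    intro i
    rcases Nat.eq_zero_or_pos i.1 with hi | hi
    · have h2 : i = 0 := Fin.ext hi
      rw [h2, xu_zero, div_self hs]
      exact one_mem _
    · by_cases hm : m + 1 < i.1
      · rw [xu_large u i hm, zero_div]
        exact zero_mem _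
      · refine IntermediateField.subset_adjoin k _ ⟨⟨i.1 - 1, by omega⟩, ?_⟩
        have h3 : i.1 - 1 + 1 < N + 2 := by omega
        simp only [f]
        rw [dif_pos h3]
        congr 2
        exact Fin.ext (by simp only; omega)
  have h2 : ratioField k (xu k N n m u) ≤ IntermediateField.adjoin k (Set.range f) := by
    unfold ratioField
    rw [IntermediateField.adjoin_le_iff]
    rintro z ⟨i, j, rfl⟩
    have h3 : xu k N n m u i / xu k N n m u j =
        (xu k N n m u i / su k N n m u) / (xu k N n m u j / su k N n m u) := by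
      rw [div_div_div_cancel_right₀ hs]
    rw [h3]
    exact div_mem (h1 i) (h1 j)
  refine le_trans ?_ (trdeg_adjoin_le (k := k) f)
  exact trdeg_le_of_injective (IntermediateField.inclusion h2)
    (IntermediateField.inclusion_injective h2)

theorem xu_ne (u : k) (hs : su k N n m u ≠ 0) : xu k N n m u ≠ 0 := by
  intro h
  apply hs
  rw [← xu_zero, h]
  rfl

/-- The point of projective space. -/
noncomputable def pt (u : {u : k // su k N n m u ≠ 0}) :
    ℙ (LL k N n m) (Fin (N + 2) → LL k N n m) :=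
  Projectivization.mk _ (xu k N n m u.1) (xu_ne u.1 u.2)

theorem pt_inj : Function.Injective (pt (k := k) (N := N) (n := n) (m := m)) := by
  rintro ⟨u, hu⟩ ⟨v, hv⟩ h
  unfold pt at h
  rw [Projectivization.mk_eq_mk_iff'] at h
  obtain ⟨a, ha⟩ := h
  have h0 := congrFun ha 0
  have h1 := congrFun ha 1
  simp only [Pi.smul_apply, smul_eq_mul, xu_zero, xu_one] at h0 h1
  have h2 := third (k := k) (N := N) (n := n) (m := m) u
  have h3 := third (k := k) (N := N) (n := n) (m := m) v
  have h4 : a = 1 := by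
    rw [← h0, ← h1] at h2
    calc a = a * (vf k N n m * su k N n m v + vg k N n m * tu k N n m v) := by
          rw [h3, mul_one]
      _ = vf k N n m * (a * su k N n m v) + vg k N n m * (a * tu k N n m v) := by ring
      _ = 1 := h2
  rw [h4, one_mul] at h0 h1
  have h5 := first (k := k) (N := N) (n := n) (m := m) u
  have h6 := first (k := k) (N := N) (n := n) (m := m) v
  rw [← h0, ← h1, h6] at h5
  have h7 := mul_right_cancel₀ (inv_ne_zero cA_ne) h5
  exact Subtype.ext ((algebraMap k (LL k N n m)).injective h7).symm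

theorem su_fin : {u : k | su k N n m u = 0}.Subsingleton := by
  intro u hu v hv
  by_contra hne
  have hu' : su k N n m u = 0 := hu
  have hv' : su k N n m v = 0 := hv
  have ht := tau_ne (k := k) (N := N) (n := n) (m := m)
  have hA := cA_ne (k := k) (N := N) (n := n) (m := m)
  have hB := cB_ne (k := k) (N := N) (n := n) (m := m)
  have hr := vr_ne (k := k) (N := N) (n := n) (m := m)
  unfold su at hu' hv'
  rw [mul_eq_zero, or_iff_left (inv_ne_zero ht)] at hu' hv'
  have h1 : (algebraMap k (LL k N n m) u - algebraMap k (LL k N n m) v) *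
      (vr k N n m * (cB k N n m)⁻¹) = 0 := by
    linear_combination (algebraMap k (LL k N n m) v) * hu' -
      (algebraMap k (LL k N n m) u) * hv'
  rcases mul_eq_zero.1 h1 with h2 | h2
  · exact hne ((algebraMap k (LL k N n m)).injective (sub_eq_zero.1 h2))
  · exact mul_ne_zero hr (inv_ne_zero hB) h2

end Pts

/-- For one form the number `2 w + 2 + c` cannot be replaced by `2 w + 1 + c`. -/
theorem sharp (k : Type u) [Field k] [CharZero k] (N w c d : ℕ) (hw : 0 < w) (hwN : w ≤ N)
    (hd : d = 2 * w + 1 + c) :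
    ∃ (L : Type u) (_ : Field L) (_ : Algebra k L) (F : MvPolynomial (Fin (N + 1)) L)
      (A : Subalgebra k L), (⊤ : IntermediateField k L).FG ∧ F.IsHomogeneous d ∧
      (((N + d).choose N : ℕ) : Cardinal.{u}) ≤
        Algebra.trdeg k (coeffField k fun _ : Fin 1 => F) + c ∧
      A.FG ∧
      {x : ℙ L (Fin (N + 1) → L) | Algebra.trdeg k (ratioField k x.rep) ≤ w ∧
        eval x.rep F ≠ 0 ∧
        ∀ J : Sym (Fin (N + 1)) d, IsIntegral A (mon x.rep J / eval x.rep F)}.Infinite := by
  obtain ⟨m, rfl⟩ : ∃ m, w = m + 1 := ⟨w - 1, by omega⟩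
  obtain ⟨M, rfl⟩ : ∃ M, N = M + 1 := ⟨N - 1, by omega⟩
  obtain ⟨n, hn⟩ : ∃ n, n = 2 * m + 1 + c := ⟨_, rfl⟩
  have hd' : d = n + 2 := by omega
  subst hd'
  have hm : m ≤ M := by omega
  refine ⟨LL k M n m, inferInstance, inferInstance, pol (cfn (yy k M n m)), AA k M n m,
    fg_LL k M n m, pol_hom _, choose_le hm c hn, fg_AA k M n m, ?_⟩
  -- the parameters
  have hS : ({u : k | u ≠ 0 ∧ u ≠ 1 ∧ su k M n m u ≠ 0} : Set k).Infinite := by
    have h1 : ({u : k | u = 0 ∨ u = 1 ∨ su k M n m u = 0} : Set k).Finite := by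
      have h2 : ({u : k | u = 0 ∨ u = 1 ∨ su k M n m u = 0} : Set k) =
          {0} ∪ ({1} ∪ {u | su k M n m u = 0}) := by
        ext u
        simp only [Set.mem_union, Set.mem_singleton_iff, Set.mem_ofPred_eq]
      rw [h2]
      exact (Set.finite_singleton _).union
        ((Set.finite_singleton _).union su_fin.finite)
    have h2 := h1.infinite_compl
    refine h2.mono fun u hu => ?_
    simp only [Set.mem_compl_iff, Set.mem_ofPred_eq, not_or] at hu
    exact hu
  have hinf : Infinite {u : k | u ≠ 0 ∧ u ≠ 1 ∧ su k M n m u ≠ 0} := hS.to_subtype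
  refine Set.infinite_of_injective_forall_mem
    (f := fun u : {u : k | u ≠ 0 ∧ u ≠ 1 ∧ su k M n m u ≠ 0} =>
      pt (k := k) (N := M) (n := n) (m := m) ⟨u.1, u.2.2.2⟩) ?_ ?_
  · intro u v h
    have h1 := pt_inj h
    have h2 := congrArg Subtype.val h1
    exact Subtype.ext h2
  · rintro ⟨u, hu0, hu1, hus⟩
    obtain ⟨a, ha⟩ := Projectivization.exists_smul_eq_mk_rep (LL k M n m) (xu k M n m u)
      (xu_ne u hus)
    have hrep : (pt (k := k) (N := M) (n := n) (m := m) ⟨u, hus⟩).rep =
        fun i => (a : LL k M n m) * xu k M n m u i := by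
      unfold pt
      rw [← ha]
      rfl
    have ha0 : (a : LL k M n m) ≠ 0 := a.ne_zero
    refine ⟨?_, ?_, ?_⟩
    · simp only
      rw [hrep, ratioField_smul _ ha0]
      exact trdeg_xu u hus
    · simp only
      rw [hrep, eval_pol, form_smul]
      exact mul_ne_zero (pow_ne_zero _ ha0) (form_ne u hus hu0 hu1)
    · intro J
      simp only
      rw [hrep, eval_pol, form_smul, mon_smul, mul_div_mul_left _ _ (pow_ne_zero _ ha0)]
      exact isIntegral_algebraMap (R := AA k M n m) (x := ⟨_, quot_mem u hus J⟩)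

end Pool.Agent.Helper67.LGS
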