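import Pool.Agent.Helper67.LGS.Gen
import Pool.Agent.Helper67.LGS.Jac

/-!
# LGS (MP_26d9ad, sharpness): the Jacobian at a special point
-/

set_option autoImplicit false

open Polynomial

namespace Pool.Agent.Helper67.LGS

open Pool.Agent.Helper8.LG

section Spec

variable {R : Type*} [CommRing R] {N n m : ℕ}

/-- The multiset with `2 j + 4` entries `1`, one entry `j + 2` and all others `0`. -/
def specJ (hm : m ≤ N) (hn : 2 * m + 1 ≤ n) (j : Fin m) : Sym (Fin (N + 2)) (n + 2) :=
  ⟨⟨j.1 + 2, by omega⟩ ::ₘ (Multiset.replicate (n + 1 - (2 * j.1 + 4)) 0 +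
    Multiset.replicate (2 * j.1 + 4) 1), by
      have := j.2
      simp
      omega⟩

theorem mem_specJ (hm : m ≤ N) (hn : 2 * m + 1 ≤ n) (j j' : Fin m)
    (h : (⟨j'.1 + 2, by omega⟩ : Fin (N + 2)) ∈ (specJ hm hn j).1) : j' = j := by
  have h1 : (specJ hm hn j).1 = ⟨j.1 + 2, by omega⟩ ::ₘ
    (Multiset.replicate (n + 1 - (2 * j.1 + 4)) 0 + Multiset.replicate (2 * j.1 + 4) 1) := rfl
  rw [h1, Multiset.mem_cons, Multiset.mem_add] at h
  rcases h with h | h | h
  · have := congrArg Fin.val h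
    exact Fin.ext (by simpa using this)
  · have := congrArg Fin.val (Multiset.eq_of_mem_replicate h)
    simp at this
  · have := congrArg Fin.val (Multiset.eq_of_mem_replicate h)
    simp at this

theorem self_mem_specJ (hm : m ≤ N) (hn : 2 * m + 1 ≤ n) (j : Fin m) :
    (⟨j.1 + 2, by omega⟩ : Fin (N + 2)) ∈ (specJ hm hn j).1 := by
  have h1 : (specJ hm hn j).1 = ⟨j.1 + 2, by omega⟩ ::ₘ
    (Multiset.replicate (n + 1 - (2 * j.1 + 4)) 0 + Multiset.replicate (2 * j.1 + 4) 1) := rfl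
  rw [h1]
  exact Multiset.mem_cons_self _ _

theorem specJ_inj (hm : m ≤ N) (hn : 2 * m + 1 ≤ n) :
    Function.Injective (specJ hm hn) := by
  intro j j' h
  refine mem_specJ hm hn j' j ?_
  rw [← h]
  exact self_mem_specJ hm hn j

theorem not_pure_specJ (hm : m ≤ N) (hn : 2 * m + 1 ≤ n) (j : Fin m) :
    ¬ Pure (specJ hm hn j) := by
  intro h
  have h1 := h ⟨j.1 + 2, by omega⟩ (self_mem_specJ hm hn j)
  simp at h1

theorem mon_specJ (hm : m ≤ N) (hn : 2 * m + 1 ≤ n) (y : Va N n m → R) (j : Fin m) :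
    mon (lin y) (specJ hm hn j) = X ^ (2 * j.1 + 4) *
      (C (y (Sum.inr (Sum.inr (Sum.inl j)))) + C (y (Sum.inr (Sum.inr (Sum.inr j)))) * X) := by
  unfold mon
  have h1 : (specJ hm hn j : Multiset (Fin (N + 2))) = ⟨j.1 + 2, by omega⟩ ::ₘ
    (Multiset.replicate (n + 1 - (2 * j.1 + 4)) 0 + Multiset.replicate (2 * j.1 + 4) 1) := rfl
  rw [h1, Multiset.map_cons, Multiset.prod_cons, Multiset.map_add, Multiset.prod_add,
    Multiset.map_replicate, Multiset.map_replicate, Multiset.prod_replicate,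
    Multiset.prod_replicate, lin_zero, lin_one, one_pow, one_mul]
  have h2 : lin y ⟨j.1 + 2, by omega⟩ = C (y (Sum.inr (Sum.inr (Sum.inl j)))) +
    C (y (Sum.inr (Sum.inr (Sum.inr j)))) * X := by
    unfold lin pv qv pc qc
    simp
  rw [h2]
  ring

open Classical in
/-- The special values. -/
noncomputable def ysp (hm : m ≤ N) (hn : 2 * m + 1 ≤ n) (a : Par m → R) : Va N n m → R :=
  Sum.elim (fun J => if ∃ j, specJ hm hn j = J.1 then 1 else 0) a

theorem np_ysp (hm : m ≤ N) (hn : 2 * m + 1 ≤ n) (a : Par m → R) :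
    np (ysp hm hn a) = ∑ j : Fin m, X ^ (2 * j.1 + 4) *
      (C (a (Sum.inr (Sum.inl j))) + C (a (Sum.inr (Sum.inr j))) * X) := by
  classical
  unfold np
  have h1 : ∀ J : NP N (n + 2), C (ysp hm hn a (Sum.inl J)) * mon (lin (ysp hm hn a)) J.1 =
      if J ∈ Finset.univ.image (fun j : Fin m => (⟨specJ hm hn j, not_pure_specJ hm hn j⟩ :
        NP N (n + 2))) then mon (lin (ysp hm hn a)) J.1 else 0 := by
    intro J
    have h2 : ysp hm hn a (Sum.inl J) = if ∃ j, specJ hm hn j = J.1 then 1 else 0 := rfl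
    rw [h2]
    by_cases h3 : ∃ j, specJ hm hn j = J.1
    · obtain ⟨j, hj⟩ := h3
      rw [if_pos ⟨j, hj⟩, if_pos, map_one, one_mul]
      exact Finset.mem_image.2 ⟨j, Finset.mem_univ _, Subtype.ext hj⟩
    · rw [if_neg h3, if_neg, map_zero, zero_mul]
      intro h4
      obtain ⟨j, _, hj⟩ := Finset.mem_image.1 h4
      exact h3 ⟨j, congrArg Subtype.val hj⟩
  rw [Finset.sum_congr rfl fun J _ => h1 J, Finset.sum_ite_mem, Finset.univ_inter,
    Finset.sum_image]
  · refine Finset.sum_congr rfl fun j _ => ?_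
    exact mon_specJ hm hn (ysp hm hn a) j
  · intro j _ j' _ h
    exact specJ_inj hm hn (congrArg Subtype.val h)

/-- The exponents. -/
def rr {m : ℕ} : Par m → ℕ
  | Sum.inl i => i.1
  | Sum.inr (Sum.inl j) => 2 * j.1 + 4
  | Sum.inr (Sum.inr j) => 2 * j.1 + 5

theorem rr_le (hn : 2 * m + 1 ≤ n) (i : Par m) : rr i ≤ n + 2 := by
  rcases i with i | j | j
  · have := i.2
    simp only [rr]
    omega
  · have := j.2
    simp only [rr]
    omega
  · have := j.2
    simp only [rr]
    omega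

/-- The values of the coefficients. -/
def tab (n : ℕ) {m : ℕ} (a : Par m → R) : Par m → R
  | Sum.inl i => ![a (Sum.inl 0) * a (Sum.inl 1),
      a (Sum.inl 0) * a (Sum.inl 2) + a (Sum.inl 1) +
        n * a (Sum.inl 3) * (a (Sum.inl 0) * a (Sum.inl 1)),
      a (Sum.inl 2) + n * a (Sum.inl 3) * (a (Sum.inl 0) * a (Sum.inl 2) + a (Sum.inl 1)),
      n * a (Sum.inl 3) * a (Sum.inl 2)] i
  | Sum.inr (Sum.inl j) => - a (Sum.inr (Sum.inl j))
  | Sum.inr (Sum.inr j) => - a (Sum.inr (Sum.inr j))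

theorem one_add_pow (ρ : R) (hρ : ρ * ρ = 0) (n : ℕ) :
    (1 + C ρ * X : R[X]) ^ n = 1 + C (n * ρ) * X := by
  induction n with
  | zero => simp
  | succ n ih =>
    rw [pow_succ, ih]
    have h1 : (C (n * ρ) * X * (C ρ * X) : R[X]) = 0 := by
      have : (C (n * ρ) * X * (C ρ * X) : R[X]) = C (n * (ρ * ρ)) * X * X := by
        simp only [C_mul]
        ring
      rw [this, hρ]
      simp
    have h2 : (1 + C (n * ρ) * X : R[X]) * (1 + C ρ * X) =
      1 + (C (n * ρ) + C ρ) * X + C (n * ρ) * X * (C ρ * X) := by ring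
    rw [h2, h1, add_zero, ← C_add]
    congr 2
    push_cast
    ring_nf

theorem coeff_hp (n : ℕ) (e f g ρ : R) (hρ : ρ * ρ = 0) (r : ℕ) :
    (hp n e f g ρ).coeff r = if r = 0 then e * f else if r = 1 then
      e * g + f + n * ρ * (e * f) else if r = 2 then g + n * ρ * (e * g + f) else
      if r = 3 then n * ρ * g else 0 := by
  have h1 : hp n e f g ρ = C (e * f) + C (e * g + f + n * ρ * (e * f)) * X +
      C (g + n * ρ * (e * g + f)) * X ^ 2 + C (n * ρ * g) * X ^ 3 := by
    unfold hp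
    rw [one_add_pow ρ hρ]
    simp only [C_add, C_mul]
    ring
  rw [h1]
  simp only [coeff_add, coeff_C, coeff_C_mul, coeff_X, coeff_X_pow]
  split_ifs <;> first | omega | simp

theorem coeff_sp (hm : m ≤ N) (hn : 2 * m + 1 ≤ n) (a : Par m → R)
    (hρ : a (Sum.inl 3) * a (Sum.inl 3) = 0) (i : Par m) :
    (gp (ysp hm hn a)).coeff (rr i) = tab n a i := by
  unfold gp
  rw [np_ysp, coeff_sub]
  have h0 : hy (ysp hm hn a) = hp n (a (Sum.inl 0)) (a (Sum.inl 1)) (a (Sum.inl 2))
    (a (Sum.inl 3)) := rfl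
  rw [h0, coeff_hp n _ _ _ _ hρ, finsetSum_coeff]
  have h1 : ∀ r (j : Fin m), (X ^ (2 * j.1 + 4) *
      (C (a (Sum.inr (Sum.inl j))) + C (a (Sum.inr (Sum.inr j))) * X)).coeff r =
      (if r = 2 * j.1 + 4 then a (Sum.inr (Sum.inl j)) else 0) +
        if r = 2 * j.1 + 5 then a (Sum.inr (Sum.inr j)) else 0 := by
    intro r j
    have h2 : (X ^ (2 * j.1 + 4) *
      (C (a (Sum.inr (Sum.inl j))) + C (a (Sum.inr (Sum.inr j))) * X) : R[X]) =
      C (a (Sum.inr (Sum.inl j))) * X ^ (2 * j.1 + 4) +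
        C (a (Sum.inr (Sum.inr j))) * X ^ (2 * j.1 + 5) := by ring
    rw [h2, coeff_add, coeff_C_mul, coeff_C_mul, coeff_X_pow, coeff_X_pow, mul_ite, mul_ite,
      mul_one, mul_one, mul_zero, mul_zero]
  rw [Finset.sum_congr rfl fun j _ => h1 _ j, Finset.sum_add_distrib]
  rcases i with i | j | j
  · have h2 : ∀ j : Fin m, (if rr (Sum.inl i : Par m) = 2 * j.1 + 4 then
        a (Sum.inr (Sum.inl j)) else 0) = 0 := by
      intro j
      have := i.2
      rw [if_neg]
      simp only [rr]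
      omega
    have h3 : ∀ j : Fin m, (if rr (Sum.inl i : Par m) = 2 * j.1 + 5 then
        a (Sum.inr (Sum.inr j)) else 0) = 0 := by
      intro j
      have := i.2
      rw [if_neg]
      simp only [rr]
      omega
    rw [Finset.sum_congr rfl fun j _ => h2 j, Finset.sum_congr rfl fun j _ => h3 j]
    fin_cases i <;> simp [rr, tab]
  · have h2 : ∀ j' : Fin m, (if rr (Sum.inr (Sum.inl j) : Par m) = 2 * j'.1 + 4 then
        a (Sum.inr (Sum.inl j')) else 0) = if j' = j then a (Sum.inr (Sum.inl j)) else 0 := by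
      intro j'
      simp only [rr]
      by_cases h3 : j' = j
      · subst h3
        simp
      · rw [if_neg h3, if_neg]
        intro h4
        exact h3 (Fin.ext (by omega))
    have h3 : ∀ j' : Fin m, (if rr (Sum.inr (Sum.inl j) : Par m) = 2 * j'.1 + 5 then
        a (Sum.inr (Sum.inr j')) else 0) = 0 := by
      intro j'
      rw [if_neg]
      simp only [rr]
      omega
    rw [Finset.sum_congr rfl fun j _ => h2 j, Finset.sum_congr rfl fun j _ => h3 j,
      Finset.sum_ite_eq' Finset.univ j]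
    simp [rr, tab]
  · have h2 : ∀ j' : Fin m, (if rr (Sum.inr (Sum.inr j) : Par m) = 2 * j'.1 + 5 then
        a (Sum.inr (Sum.inr j')) else 0) = if j' = j then a (Sum.inr (Sum.inr j)) else 0 := by
      intro j'
      simp only [rr]
      by_cases h3 : j' = j
      · subst h3
        simp
      · rw [if_neg h3, if_neg]
        intro h4
        exact h3 (Fin.ext (by omega))
    have h3 : ∀ j' : Fin m, (if rr (Sum.inr (Sum.inr j) : Par m) = 2 * j'.1 + 4 then
        a (Sum.inr (Sum.inl j')) else 0) = 0 := by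
      intro j'
      rw [if_neg]
      simp only [rr]
      omega
    rw [Finset.sum_congr rfl fun j _ => h2 j, Finset.sum_congr rfl fun j _ => h3 j,
      Finset.sum_ite_eq' Finset.univ j]
    simp [rr, tab]

end Spec

end Pool.Agent.Helper67.LGS
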