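import Pool.Agent.Helper8.LG.SDefs
import Pool.Agent.Helper67.LGS.Jdet

/-!
# LGS (MP_26d9ad, sharpness): cardinals, scaling, polynomials
-/

set_option autoImplicit false

open MvPolynomial

namespace Pool.Agent.Helper67.LGS

open Pool.Agent.Helper8.LG

universe u

theorem mon_smul {σ R : Type*} [CommRing R] {d : ℕ} (s : R) (x : σ → R) (J : Sym σ d) :
    mon (fun i => s * x i) J = s ^ d * mon x J := by
  unfold mon
  rw [Multiset.prod_map_mul, Multiset.map_const', Multiset.prod_replicate]
  congr 2
  exact J.2

theorem form_smul {σ R : Type*} [Fintype σ] [DecidableEq σ] [CommRing R] {d : ℕ}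
    (a : Sym σ d → R) (s : R) (x : σ → R) :
    form a (fun i => s * x i) = s ^ d * form a x := by
  unfold form
  rw [Finset.mul_sum]
  refine Finset.sum_congr rfl fun J _ => ?_
  rw [mon_smul]
  ring

/-- The polynomial with the coefficients `a`. -/
noncomputable def pol {R : Type*} [CommRing R] {M d : ℕ} (a : Sym (Fin (M + 1)) d → R) :
    MvPolynomial (Fin (M + 1)) R :=
  ∑ J : Sym (Fin (M + 1)) d, monomial (Multiset.toFinsupp (J : Multiset (Fin (M + 1)))) (a J)

theorem pol_hom {R : Type*} [CommRing R] {M d : ℕ} (a : Sym (Fin (M + 1)) d → R) :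
    (pol a).IsHomogeneous d := by
  unfold pol
  refine IsHomogeneous.sum _ _ _ fun J _ => ?_
  refine isHomogeneous_monomial _ ?_
  rw [Finsupp.degree_eq_sum]
  have h1 : ∑ i, (Multiset.toFinsupp (J : Multiset (Fin (M + 1)))) i =
      Multiset.card (J : Multiset (Fin (M + 1))) := by
    simp only [Multiset.toFinsupp_apply]
    exact Multiset.sum_count_eq_card fun a _ => Finset.mem_univ a
  rw [h1]
  exact J.2

theorem coeff_pol {R : Type*} [CommRing R] {M d : ℕ} (a : Sym (Fin (M + 1)) d → R)
    (J : Sym (Fin (M + 1)) d) :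
    coeff (Multiset.toFinsupp (J : Multiset (Fin (M + 1)))) (pol a) = a J := by
  classical
  unfold pol
  rw [coeff_sum, Finset.sum_eq_single J]
  · rw [coeff_monomial, if_pos rfl]
  · intro J' _ h
    rw [coeff_monomial, if_neg]
    intro h'
    exact h (Subtype.ext (Multiset.toFinsupp.injective h'))
  · intro h
    exact absurd (Finset.mem_univ J) h

theorem eval_pol {R : Type*} [CommRing R] {M d : ℕ} (a : Sym (Fin (M + 1)) d → R)
    (x : Fin (M + 1) → R) : eval x (pol a) = form a x := by
  unfold pol form
  rw [map_sum]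
  refine Finset.sum_congr rfl fun J _ => ?_
  rw [eval_monomial]
  congr 1
  unfold mon
  rw [Finsupp.prod_fintype _ _ (by simp), Finset.prod_multiset_map_count]
  simp only [Multiset.toFinsupp_apply]
  refine (Finset.prod_subset (Finset.subset_univ _) fun i _ hi => ?_).symm
  rw [Multiset.mem_toFinset] at hi
  rw [Multiset.count_eq_zero_of_notMem hi, pow_zero]

open IntermediateField.algebraAdjoinAdjoin in
theorem trdeg_adjoin_le {k L : Type u} [Field k] [Field L] [Algebra k L] {w : ℕ}
    (f : Fin w → L) : Algebra.trdeg k (IntermediateField.adjoin k (Set.range f)) ≤ w := by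
  have h1 : Algebra.trdeg k (IntermediateField.adjoin k (Set.range f)) =
      Algebra.trdeg k (Algebra.adjoin k (Set.range f)) := by
    have h2 := trdeg_add_eq k (Algebra.adjoin k (Set.range f))
      (A := IntermediateField.adjoin k (Set.range f))
    rw [trdeg_eq_zero (R := Algebra.adjoin k (Set.range f))
      (A := IntermediateField.adjoin k (Set.range f)), add_zero] at h2
    exact h2.symm
  rw [h1, Algebra.adjoin_range_eq_range_aeval]
  refine (trdeg_le_of_surjective (aeval f).rangeRestrict (aeval f).rangeRestrict_surjective).trans ?_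
  rw [MvPolynomial.trdeg_of_isDomain]
  simp

end Pool.Agent.Helper67.LGS
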